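import Pool.Agent.Lib.MP_2b2af9_co.Apply2
import Pool.Agent.Lib.MP_2b2af9_co.Numbers

/-!
# Butson Hadamard matrices with a rank-two logarithmic form: almost all orders are excluded

Let `H ∈ BH(n, q)` have a rank-two logarithmic form, `p` a prime, `k ≥ 1`, `p^k ∣ q` and `p^v` the exact
power of `p` dividing `n`. Then `n ∣ q^2` or `n (κ + 1) ≤ q^2` with `κ = p^(2k)` for `v = 0`, `p^(k + 1 - v)`
for `1 ≤ v ≤ k`, `p` for `k < v < 2k` and `1` for `v ≥ 2k` (theorem `result`). Consequences: if `n` does not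
divide `q^2` then `q · rad q` divides `n · lcm(1, …, ⌊q^2/n⌋ - 1)` (`lcm_dvd`), and `n = p^v u` with
`u < p^(k - 1)` if `q = p^k` (`prime_power`); at most
`(k + 2) q^2 / p^(k + 1)` orders `n ≤ q^2` are possible for a given `q` (`count_le`), a proportion which
tends to `0` as `q → ∞` (`density_zero`); for squarefree `q` every possible `n > 3 q^2 / 20` divides `q^2`
(`squarefree_range`).
-/

set_option autoImplicit false

open Finset Pool.Agent.Lib.MP_2b2af9_co.Dense Pool.Agent.Lib.MP_2b2af9_co.Lev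
  Pool.Agent.Lib.MP_2b2af9_co.Num

namespace Pool.Agent.Results.MP_2b2af9_co.AlmostAll

/-- There is a Butson Hadamard matrix `H` of order `n` over the `q`th roots of unity whose logarithmic form is
`A B` modulo `q` for an `n × 2` matrix `A` and a `2 × n` matrix `B` over `Z_q`. -/
def RankTwo (n q : ℕ) : Prop :=
  ∃ (A : Matrix (Fin n) (Fin 2) (ZMod q)) (B : Matrix (Fin 2) (Fin n) (ZMod q))
    (H : Matrix (Fin n) (Fin n) ℂ),
    (∀ i j, H i j = Complex.exp (2 * (Real.pi : ℂ) * Complex.I *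
      (((A * B) i j).val : ℂ) / (q : ℂ))) ∧
    H * H.conjTranspose = (n : ℂ) • (1 : Matrix (Fin n) (Fin n) ℂ)

/-- the spectral pair -/
theorem exists_sp {n q : ℕ} (hn : 0 < n) [NeZero q] (h : RankTwo n q) :
    ∃ a b : Fin n → V q, Sp a b := by
  obtain ⟨A, B, H, hH, hHH⟩ := h
  set a : Fin n → V q := fun i => (A i 0, A i 1) with ha
  set b : Fin n → V q := fun j => (B 0 j, B 1 j) with hb
  refine ⟨a, b, hn, ?_, ?_⟩
  all_goals
    have hent : ∀ i j, H i j = χ (dot (a i) (b j)) := by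
      intro i j
      have h1 : (A * B) i j = dot (a i) (b j) := by
        rw [Matrix.mul_apply, Fin.sum_univ_two]
        rfl
      rw [hH, h1]
      have h2 := ZMod.stdAddChar_coe (N := q) (((dot (a i) (b j)).val : ℕ) : ℤ)
      have h3 : ((((dot (a i) (b j)).val : ℕ) : ℤ) : ZMod q) = dot (a i) (b j) := by
        rw [Int.cast_natCast, ZMod.natCast_zmod_val]
      rw [h3] at h2
      show _ = ZMod.stdAddChar (dot (a i) (b j))
      rw [h2]
      simp
    have hn0 : (n : ℂ) ≠ 0 := by exact_mod_cast hn.ne'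
    have hHH2 : H.conjTranspose * H = (n : ℂ) • (1 : Matrix (Fin n) (Fin n) ℂ) := by
      have h1 : H * ((n : ℂ)⁻¹ • H.conjTranspose) = 1 := by
        rw [Matrix.mul_smul, hHH, smul_smul, inv_mul_cancel₀ hn0, one_smul]
      have h2 := mul_eq_one_comm.mp h1
      rw [Matrix.smul_mul] at h2
      have h3 := congrArg (fun M => (n : ℂ) • M) h2
      simp only [smul_smul, mul_inv_cancel₀ hn0, one_smul] at h3
      exact h3
  · intro i i' hne
    have h1 := congrFun (congrFun hHH i) i'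
    rw [Matrix.mul_apply, Matrix.smul_apply, Matrix.one_apply_ne hne, smul_zero] at h1
    rw [← h1]
    refine sum_congr rfl fun j _ => ?_
    rw [Matrix.conjTranspose_apply, hent, hent]
    show _ = _ * (starRingEnd ℂ) _
    rw [← χ_neg, ← χ_add, dot_sub, sub_eq_add_neg]
  · intro j j' hne
    have h1 := congrFun (congrFun hHH2 j') j
    rw [Matrix.mul_apply, Matrix.smul_apply, Matrix.one_apply_ne hne.symm, smul_zero] at h1
    rw [← h1]
    refine sum_congr rfl fun i _ => ?_
    rw [Matrix.conjTranspose_apply, hent, hent]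
    show _ = (starRingEnd ℂ) _ * _
    rw [← χ_neg, ← χ_add, dot_sub', sub_eq_add_neg, add_comm]

theorem le_sq {n q : ℕ} (hn : 0 < n) (hq : 0 < q) (h : RankTwo n q) : n ≤ q ^ 2 := by
  have : NeZero q := ⟨hq.ne'⟩
  obtain ⟨a, b, hSp⟩ := exists_sp hn h
  rcases hSp.packing {0} (by
    intro x hx y hy hne
    rw [mem_singleton] at hx hy
    exact absurd (hx.trans hy.symm) hne) with h1 | h1
  · rw [card_singleton] at h1
    omega
  · rw [card_singleton] at h1
    omega

theorem cond {n q : ℕ} (hn : 0 < n) (hq : 0 < q) (h : RankTwo n q) : Cond n q := by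
  have : NeZero q := ⟨hq.ne'⟩
  obtain ⟨a, b, hSp⟩ := exists_sp hn h
  intro p k hp hk hpk
  exact partA hSp hp (dvd_trans (dvd_pow_self p hk.ne') hpk) hpk

/-- The size of a set without vanishing differences in the dual of `Z_{p^k} × Z_{p^k}`, in terms of the
exact power `p^v` of `p` which divides `n`. -/
def kap (p k v : ℕ) : ℕ :=
  if v = 0 then p ^ (2 * k) else if v ≤ k then p ^ (k + 1 - v) else if v < 2 * k then p else 1

/-- **Main theorem.** If a Butson Hadamard matrix of order `n` over the `q`th roots of unity has a rank-two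
logarithmic form, `p^k ∣ q` and `p^v` is the exact power of `p` in `n`, then `n ∣ q^2` or
`n (kap p k v + 1) ≤ q^2`. -/
theorem result (n q p k : ℕ) (hn : 0 < n) (hq : 0 < q) (hp : p.Prime) (hk : 0 < k) (hpk : p ^ k ∣ q)
    (h : RankTwo n q) :
    n ∣ q ^ 2 ∨ n * (kap p k (padicValNat p n) + 1) ≤ q ^ 2 := by
  have : NeZero q := ⟨hq.ne'⟩
  have hle := le_sq hn hq h
  obtain ⟨a, b, hSp⟩ := exists_sp hn h
  unfold kap
  split_ifs with h0 h1 h2
  · -- `p ∤ n`
    have hpn : ¬ p ∣ n := by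
      rw [padicValNat.eq_zero_iff] at h0
      rcases h0 with h0 | h0 | h0
      · exact absurd h0 hp.one_lt.ne'
      · exact absurd h0 hn.ne'
      · exact h0
    rcases partC hSp hp hpk hpn with h3 | h3
    · exact Or.inl ⟨_, h3.symm⟩
    · exact Or.inr h3
  · exact partA hSp hp (dvd_trans (dvd_pow_self p hk.ne') hpk) hpk
  · by_cases h3 : q ^ 2 < n * (p + 1)
    · rcases partB hSp hp hpk h3 with h4 | h4
      · exact Or.inl ⟨_, h4.symm⟩
      · exfalso
        have : Fact p.Prime := ⟨hp⟩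
        have h5 := (padicValNat_dvd_iff_le (p := p) hn.ne').1 h4
        omega
    · exact Or.inr (by omega)
  · rcases hSp.packing {0} (by
      intro x hx y hy hne
      rw [mem_singleton] at hx hy
      exact absurd (hx.trans hy.symm) hne) with h3 | h3
    · rw [card_singleton, one_mul] at h3
      exact Or.inl (by rw [h3])
    · rw [card_singleton] at h3
      right
      rw [mul_comm]
      exact h3

/-- If `n` does not divide `q^2` then `q · rad q` divides `n · lcm(1, …, ⌊q^2/n⌋ - 1)`. -/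
theorem lcm_dvd {n q : ℕ} (hn : 0 < n) (hq : 0 < q) (h : RankTwo n q) (hnq : ¬ n ∣ q ^ 2) :
    q * ∏ p ∈ q.primeFactors, p ∣ n * (Icc 1 (q ^ 2 / n - 1)).lcm id :=
  lcm_of hn hq (cond hn hq h) hnq

/-- Prime powers `q = p^k`: if `n` does not divide `q^2` then `n = p^v u` with `u < p^(k - 1)`. -/
theorem prime_power {n p k : ℕ} (hn : 0 < n) (hp : p.Prime) (hk : 0 < k) (h : RankTwo n (p ^ k))
    (hnq : ¬ n ∣ (p ^ k) ^ 2) : ∃ v u : ℕ, n = p ^ v * u ∧ u < p ^ (k - 1) := by
  have hq : 0 < p ^ k := pow_pos hp.pos k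
  set v := padicValNat p n with hv
  have hdvd : p ^ v ∣ n := pow_padicValNat_dvd
  obtain ⟨u, hu⟩ := hdvd
  refine ⟨v, u, hu, ?_⟩
  rcases cond hn hq h p k hp hk dvd_rfl with h1 | h1
  · exact absurd h1 hnq
  rw [← hv, ← pow_mul] at h1
  have h2 : n * p ^ (k + 1 - v) < p ^ (k * 2) := by
    have h3 : n * (p ^ (k + 1 - v) + 1) = n * p ^ (k + 1 - v) + n := by ring
    omega
  have h3 : p ^ (k + 1) * u ≤ n * p ^ (k + 1 - v) := by
    calc p ^ (k + 1) * u ≤ p ^ (v + (k + 1 - v)) * u :=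
          Nat.mul_le_mul_right _ (Nat.pow_le_pow_right hp.pos (by omega))
      _ = p ^ v * u * p ^ (k + 1 - v) := by rw [pow_add]; ring
      _ = n * p ^ (k + 1 - v) := by rw [← hu]
  have h4 : p ^ (k * 2) = p ^ (k + 1) * p ^ (k - 1) := by
    rw [← pow_add]
    congr 1
    omega
  rw [h4] at h2
  exact lt_of_mul_lt_mul_left (h3.trans_lt h2) (Nat.zero_le _)

/-- For squarefree `q` and `n > 3 q^2 / 20`: `n` divides `q^2`. -/
theorem squarefree_range {n q : ℕ} (hn : 0 < n) (hq : 0 < q) (h : RankTwo n q) (hsq : Squarefree q)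
    (hbig : 3 * q ^ 2 < 20 * n) : n ∣ q ^ 2 :=
  sqf_of hn hsq (cond hn hq h) (le_sq hn hq h) hbig

open Classical in
theorem conds (q : ℕ) (hq : 0 < q) : ∀ n ∈ (Icc 1 (q ^ 2)).filter (fun n => RankTwo n q),
    0 < n ∧ n ≤ q ^ 2 ∧ Cond n q := by
  intro n hn
  rw [mem_filter, mem_Icc] at hn
  have hn0 : 0 < n := by omega
  exact ⟨hn0, hn.1.2, cond hn0 hq hn.2⟩

open Classical in
/-- The number of orders `n` which are possible for a given `q` is at most `(k + 2) q^2 / p^(k + 1)`. -/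
theorem count_le (q p k : ℕ) (hq : 0 < q) (hp : p.Prime) (hk : 0 < k) (hpk : p ^ k ∣ q) :
    #{n ∈ Icc 1 (q ^ 2) | RankTwo n q} * p ^ (k + 1) ≤ (k + 2) * q ^ 2 :=
  count_of hq _ (conds q hq) hp hk hpk

open Classical in
/-- **Almost all orders are excluded**: the proportion of possible orders `n ≤ q^2` tends to `0`. -/
theorem density_zero (ε : ℝ) (hε : 0 < ε) : ∃ q₀ : ℕ, ∀ q : ℕ, q₀ ≤ q →
    (#{n ∈ Icc 1 (q ^ 2) | RankTwo n q} : ℝ) ≤ ε * (q : ℝ) ^ 2 :=
  density_of (fun q => (Icc 1 (q ^ 2)).filter (fun n => RankTwo n q)) conds hε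

end Pool.Agent.Results.MP_2b2af9_co.AlmostAll
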