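import Pool.Agent.Lib.MP_2b2af9_co.Dense

/-!
# Butson Hadamard matrices with a rank-two logarithmic form and `n > q^2 / max(4, p + 1)`

`p` is the smallest prime factor of `q`. If `H ∈ BH(n, q)` has a rank-two logarithmic form and
`q^2 < max(4, p + 1) n`, then `n` is one of `q^2, q^2/2, q^2/3, q^2/p`. So `n ∣ q^2`.
-/

set_option autoImplicit false

open Finset Pool.Agent.Lib.MP_2b2af9_co.Dense

namespace Pool.Agent.Results.MP_2b2af9_co.DenseRange

theorem result (n q : ℕ) (hn : 0 < n) (hq : 0 < q)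
    (A : Matrix (Fin n) (Fin 2) (ZMod q)) (B : Matrix (Fin 2) (Fin n) (ZMod q))
    (H : Matrix (Fin n) (Fin n) ℂ)
    (hH : ∀ i j, H i j = Complex.exp (2 * (Real.pi : ℂ) * Complex.I *
            (((A * B) i j).val : ℂ) / (q : ℂ)))
    (hHH : H * H.conjTranspose = (n : ℂ) • (1 : Matrix (Fin n) (Fin n) ℂ))
    (hlarge : q ^ 2 < max 4 (q.minFac + 1) * n) :
    (n = q ^ 2 ∨ 2 * n = q ^ 2 ∨ 3 * n = q ^ 2 ∨ q.minFac * n = q ^ 2) ∧ n ∣ q ^ 2 := by
  have : NeZero q := ⟨hq.ne'⟩
  set a : Fin n → V q := fun i => (A i 0, A i 1) with ha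
  set b : Fin n → V q := fun j => (B 0 j, B 1 j) with hb
  have hent : ∀ i j, H i j = χ (dot (a i) (b j)) := by
    intro i j
    have h1 : (A * B) i j = dot (a i) (b j) := by
      rw [Matrix.mul_apply, Fin.sum_univ_two]
      rfl
    rw [hH, h1]
    have h2 := ZMod.stdAddChar_coe (N := q) (((dot (a i) (b j)).val : ℕ) : ℤ)
    have h3 : ((((dot (a i) (b j)).val : ℕ) : ℤ) : ZMod q) = dot (a i) (b j) := by
      rw [Int.cast_natCast, ZMod.natCast_zmod_val]
    rw [h3] at h2
    show _ = ZMod.stdAddChar (dot (a i) (b j))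
    rw [h2]
    simp
  have hn0 : (n : ℂ) ≠ 0 := by exact_mod_cast hn.ne'
  have hHH2 : H.conjTranspose * H = (n : ℂ) • (1 : Matrix (Fin n) (Fin n) ℂ) := by
    have h1 : H * ((n : ℂ)⁻¹ • H.conjTranspose) = 1 := by
      rw [Matrix.mul_smul, hHH, smul_smul, inv_mul_cancel₀ hn0, one_smul]
    have h2 := mul_eq_one_comm.mp h1
    rw [Matrix.smul_mul] at h2
    have h3 := congrArg (fun M => (n : ℂ) • M) h2
    simp only [smul_smul, mul_inv_cancel₀ hn0, one_smul] at h3
    exact h3
  have hSp : Sp a b := by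
    refine ⟨hn, ?_, ?_⟩
    · intro i i' hne
      have h1 := congrFun (congrFun hHH i) i'
      rw [Matrix.mul_apply, Matrix.smul_apply, Matrix.one_apply_ne hne, smul_zero] at h1
      rw [← h1]
      refine sum_congr rfl fun j _ => ?_
      rw [Matrix.conjTranspose_apply, hent, hent]
      show _ = _ * (starRingEnd ℂ) _
      rw [← χ_neg, ← χ_add, dot_sub, sub_eq_add_neg]
    · intro j j' hne
      have h1 := congrFun (congrFun hHH2 j') j
      rw [Matrix.mul_apply, Matrix.smul_apply, Matrix.one_apply_ne hne.symm, smul_zero] at h1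
      rw [← h1]
      refine sum_congr rfl fun i _ => ?_
      rw [Matrix.conjTranspose_apply, hent, hent]
      show _ = (starRingEnd ℂ) _ * _
      rw [← χ_neg, ← χ_add, dot_sub', sub_eq_add_neg, add_comm]
  have hmain : n = q ^ 2 ∨ 2 * n = q ^ 2 ∨ 3 * n = q ^ 2 ∨ q.minFac * n = q ^ 2 := by
    rcases hSp.prime with h1 | h1 | h1
    · exact Or.inl h1.symm
    · exact Or.inr (Or.inr (Or.inr h1.symm))
    · rcases hSp.four with h2 | h2 | h2 | h2
      · exact Or.inl h2.symm
      · exact Or.inr (Or.inl h2.symm)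
      · exact Or.inr (Or.inr (Or.inl h2.symm))
      · exfalso
        have h3 : max 4 (q.minFac + 1) * n ≤ q ^ 2 := by
          rcases max_cases 4 (q.minFac + 1) with ⟨h4, _⟩ | ⟨h4, _⟩
          · rw [h4]
            exact h2
          · rw [h4]
            exact h1
        omega
  refine ⟨hmain, ?_⟩
  rcases hmain with h1 | h1 | h1 | h1
  · exact ⟨1, by rw [mul_one, h1]⟩
  · exact ⟨2, by rw [← h1, mul_comm]⟩
  · exact ⟨3, by rw [← h1, mul_comm]⟩
  · exact ⟨q.minFac, by rw [← h1, mul_comm]⟩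

end Pool.Agent.Results.MP_2b2af9_co.DenseRange
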