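import Pool.Agent.Lib.MP_2b2af9_co.Cases3
import Pool.Agent.Lib.MP_2b2af9_co.Vanish

/-!
# Butson Hadamard matrices with a rank-two logarithmic form over the `p^2`-th roots of unity
-/

open Finset BHp2

set_option linter.unusedSectionVars false

namespace Pool.Agent.Results.MP_2b2af9_co.PrimeSquare

theorem E_of_sum {p : ℕ} [hp : Fact p.Prime] {J : Type} [Fintype J] [DecidableEq J] (b : J → V p)
    (d : V p) (h : ∑ j, ZMod.stdAddChar (dot (b j) d) = (0 : ℂ)) : E b d := by
  intro s j
  have h1 := vanish p 1 (p ^ 2) (by norm_num) (fun s : ZMod (p ^ 2) => (univ.filter fun i => dot (b i) d = s).card) (by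
    rw [← h]
    have h2 : ∀ s : ZMod (p ^ 2), (((univ.filter fun i => dot (b i) d = s).card : ℕ) : ℂ) * ZMod.stdAddChar s
        = ∑ i ∈ univ.filter (fun i => dot (b i) d = s), ZMod.stdAddChar (dot (b i) d) := by
      intro s
      rw [sum_congr rfl (g := fun _ => ZMod.stdAddChar s)]
      · rw [sum_const, nsmul_eq_mul]
      · intro i hi
        rw [(mem_filter.mp hi).2]
    simp only [h2]
    rw [Finset.sum_fiberwise]) s j
  simp only [pow_one] at h1
  exact h1

theorem result (p n : ℕ) (hp : p.Prime) (hn : 0 < n)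
    (A : Matrix (Fin n) (Fin 2) (ZMod (p ^ 2))) (B : Matrix (Fin 2) (Fin n) (ZMod (p ^ 2)))
    (H : Matrix (Fin n) (Fin n) ℂ)
    (hH : ∀ i j, H i j = Complex.exp (2 * (Real.pi : ℂ) * Complex.I *
            (((A * B) i j).val : ℂ) / ((p ^ 2 : ℕ) : ℂ)))
    (hHH : H * H.conjTranspose = (n : ℂ) • (1 : Matrix (Fin n) (Fin n) ℂ)) :
    ∃ k ≤ 4, n = p ^ k := by
  have : Fact p.Prime := ⟨hp⟩
  set a : Fin n → V p := fun i => (A i 0, A i 1) with ha
  set b : Fin n → V p := fun j => (B 0 j, B 1 j) with hb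
  have hent : ∀ i j, H i j = ZMod.stdAddChar (dot (a i) (b j)) := by
    intro i j
    have h1 : (A * B) i j = dot (a i) (b j) := by
      rw [Matrix.mul_apply, Fin.sum_univ_two]
      rfl
    rw [hH, h1]
    have h2 := ZMod.stdAddChar_coe (N := p ^ 2) (((dot (a i) (b j)).val : ℕ) : ℤ)
    have h3 : ((((dot (a i) (b j)).val : ℕ) : ℤ) : ZMod (p ^ 2)) = dot (a i) (b j) := by
      rw [Int.cast_natCast, ZMod.natCast_zmod_val]
    rw [h3] at h2
    rw [h2]
    simp
  have hconj : ∀ x : ZMod (p ^ 2), (starRingEnd ℂ) (ZMod.stdAddChar x) = ZMod.stdAddChar (-x) := by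
    intro x
    rw [AddChar.map_neg_eq_conj]
  have hn0 : (n : ℂ) ≠ 0 := by exact_mod_cast hn.ne'
  have hHH2 : H.conjTranspose * H = (n : ℂ) • (1 : Matrix (Fin n) (Fin n) ℂ) := by
    have h1 : H * ((n : ℂ)⁻¹ • H.conjTranspose) = 1 := by
      rw [Matrix.mul_smul, hHH, smul_smul, inv_mul_cancel₀ hn0, one_smul]
    have h2 := mul_eq_one_comm.mp h1
    rw [Matrix.smul_mul] at h2
    have h3 := congrArg (fun M => (n : ℂ) • M) h2
    simp only [smul_smul, mul_inv_cancel₀ hn0, one_smul] at h3
    exact h3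
  have hSP : SP a b := by
    refine ⟨?_, ?_, rfl, by rw [Fintype.card_fin]; exact hn⟩
    · intro i i' hne
      apply E_of_sum
      have h1 := congrFun (congrFun hHH i) i'
      rw [Matrix.mul_apply, Matrix.smul_apply, Matrix.one_apply_ne hne, smul_zero] at h1
      rw [← h1]
      apply sum_congr rfl
      intro j _
      rw [Matrix.conjTranspose_apply, hent, hent]
      show _ = _ * (starRingEnd ℂ) _
      rw [hconj, ← AddChar.map_add_eq_mul, dot_sub, dot_comm (b j) (a i), dot_comm (b j) (a i'), sub_eq_add_neg]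
    · intro j j' hne
      apply E_of_sum
      have h1 := congrFun (congrFun hHH2 j') j
      rw [Matrix.mul_apply, Matrix.smul_apply, Matrix.one_apply_ne hne.symm, smul_zero] at h1
      rw [← h1]
      apply sum_congr rfl
      intro i _
      rw [Matrix.conjTranspose_apply, hent, hent]
      show _ = (starRingEnd ℂ) _ * _
      rw [hconj, ← AddChar.map_add_eq_mul, dot_sub]
      congr 1
      ring
  obtain ⟨k, hk, hk2⟩ := BHp2.main hSP
  exact ⟨k, hk, by rw [← hk2, Fintype.card_fin]⟩

end Pool.Agent.Results.MP_2b2af9_co.PrimeSquare
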