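import Pool.Agent.Lib.MP_2b2af9_co.SmallM

/-!
# Butson Hadamard matrices of small order with a rank-two logarithmic form
-/

set_option autoImplicit false

open Finset

namespace Pool.Agent.Results.MP_2b2af9_co.SmallOrder

theorem result (n q p : ℕ) (hn : 0 < n) (hq : 0 < q) (hp : p.Prime)
    (hpr : ∀ r : ℕ, r.Prime → r ∣ q → r ≠ p → n - 1 ≤ r)
    (hsm : ¬ p ^ 2 ∣ n ∨ n < 2 * p ^ 2 ∨ n ≤ 9)
    (A : Matrix (Fin n) (Fin 2) (ZMod q)) (B : Matrix (Fin 2) (Fin n) (ZMod q))
    (H : Matrix (Fin n) (Fin n) ℂ)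
    (hH : ∀ i j, H i j = Complex.exp (2 * (Real.pi : ℂ) * Complex.I *
            (((A * B) i j).val : ℂ) / (q : ℂ)))
    (hHH : H * H.conjTranspose = (n : ℂ) • (1 : Matrix (Fin n) (Fin n) ℂ)) :
    n ∣ q ^ 2 := by
  have : NeZero q := ⟨hq.ne'⟩
  set a : Fin n → ℤ × ℤ := fun i => (((A i 0).val : ℤ), ((A i 1).val : ℤ)) with ha
  set b : Fin n → ℤ × ℤ := fun j => (((B 0 j).val : ℤ), ((B 1 j).val : ℤ)) with hb
  have hent : ∀ i j, H i j = BHsm.e q (BHsm.dotZ (a i) (b j)) := by
    intro i j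
    have h1 : (A * B) i j = ((BHsm.dotZ (a i) (b j) : ℤ) : ZMod q) := by
      rw [Matrix.mul_apply, Fin.sum_univ_two]
      unfold BHsm.dotZ
      simp only [ha, hb]
      push_cast
      rw [ZMod.natCast_zmod_val, ZMod.natCast_zmod_val, ZMod.natCast_zmod_val,
        ZMod.natCast_zmod_val]
    rw [hH, BHsm.e_std, ← h1]
    have h2 := ZMod.stdAddChar_coe (N := q) ((((A * B) i j).val : ℕ) : ℤ)
    have h3 : (((((A * B) i j).val : ℕ) : ℤ) : ZMod q) = (A * B) i j := by
      rw [Int.cast_natCast, ZMod.natCast_zmod_val]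
    rw [h3] at h2
    rw [h2]
    simp
  have hconj : ∀ x : ℤ, (starRingEnd ℂ) (BHsm.e q x) = BHsm.e q (-x) := by
    intro x
    rw [BHsm.e_std, BHsm.e_std, Int.cast_neg, AddChar.map_neg_eq_conj]
  have hn0 : (n : ℂ) ≠ 0 := by exact_mod_cast hn.ne'
  have hHH2 : H.conjTranspose * H = (n : ℂ) • (1 : Matrix (Fin n) (Fin n) ℂ) := by
    have h1 : H * ((n : ℂ)⁻¹ • H.conjTranspose) = 1 := by
      rw [Matrix.mul_smul, hHH, smul_smul, inv_mul_cancel₀ hn0, one_smul]
    have h2 := mul_eq_one_comm.mp h1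
    rw [Matrix.smul_mul] at h2
    have h3 := congrArg (fun M => (n : ℂ) • M) h2
    simp only [smul_smul, mul_inv_cancel₀ hn0, one_smul] at h3
    exact h3
  have hSP : BHsm.SPZ q a b := by
    refine ⟨?_, ?_⟩
    · intro i i' hne
      have h1 := congrFun (congrFun hHH i) i'
      rw [Matrix.mul_apply, Matrix.smul_apply, Matrix.one_apply_ne hne, smul_zero] at h1
      rw [← h1]
      apply sum_congr rfl
      intro j _
      rw [Matrix.conjTranspose_apply, hent, hent]
      show _ = _ * (starRingEnd ℂ) _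
      rw [hconj, ← BHsm.e_add]
      congr 1
      unfold BHsm.dotZ
      simp only [Prod.fst_sub, Prod.snd_sub]
      ring
    · intro j j' hne
      have h1 := congrFun (congrFun hHH2 j') j
      rw [Matrix.mul_apply, Matrix.smul_apply, Matrix.one_apply_ne hne.symm, smul_zero] at h1
      rw [← h1]
      apply sum_congr rfl
      intro i _
      rw [Matrix.conjTranspose_apply, hent, hent]
      show _ = (starRingEnd ℂ) _ * _
      rw [hconj, ← BHsm.e_add]
      congr 1
      unfold BHsm.dotZ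
      simp only [Prod.fst_sub, Prod.snd_sub]
      ring
  exact BHsm.main hp hn hq (fun r hr hrq hrp => by
    have := hpr r hr hrq hrp
    omega) hsm hSP

/-- If `q` is a power of a prime `p` then `n = 1`, `n = p` or `p ^ 2` divides `n`. -/
theorem prime_power (n k p : ℕ) (hn : 0 < n) (hp : p.Prime)
    (A : Matrix (Fin n) (Fin 2) (ZMod (p ^ k))) (B : Matrix (Fin 2) (Fin n) (ZMod (p ^ k)))
    (H : Matrix (Fin n) (Fin n) ℂ)
    (hH : ∀ i j, H i j = Complex.exp (2 * (Real.pi : ℂ) * Complex.I *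
            (((A * B) i j).val : ℂ) / ((p ^ k : ℕ) : ℂ)))
    (hHH : H * H.conjTranspose = (n : ℂ) • (1 : Matrix (Fin n) (Fin n) ℂ)) :
    n = 1 ∨ n = p ∨ p ^ 2 ∣ n := by
  by_cases h1 : p ^ 2 ∣ n
  · exact Or.inr (Or.inr h1)
  have h2 := result n (p ^ k) p hn (pow_pos hp.pos k) hp (fun r hr hrq hrp => by
    exact absurd ((Nat.prime_dvd_prime_iff_eq hr hp).mp (hr.dvd_of_dvd_pow hrq)) hrp)
    (Or.inl h1) A B H hH hHH
  rw [← pow_mul] at h2
  obtain ⟨j, -, hj⟩ := (Nat.dvd_prime_pow hp).mp h2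
  have h3 : j < 2 := by
    by_contra h4
    apply h1
    rw [hj]
    exact pow_dvd_pow p (by omega)
  have h5 : j = 0 ∨ j = 1 := by omega
  rcases h5 with rfl | rfl
  · exact Or.inl (by rw [hj, pow_zero])
  · exact Or.inr (Or.inl (by rw [hj, pow_one]))

/-- Order six: `6` divides `q`, for every `q`. -/
theorem order_six (q : ℕ) (hq : 0 < q)
    (A : Matrix (Fin 6) (Fin 2) (ZMod q)) (B : Matrix (Fin 2) (Fin 6) (ZMod q))
    (H : Matrix (Fin 6) (Fin 6) ℂ)
    (hH : ∀ i j, H i j = Complex.exp (2 * (Real.pi : ℂ) * Complex.I *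
            (((A * B) i j).val : ℂ) / (q : ℂ)))
    (hHH : H * H.conjTranspose = ((6 : ℕ) : ℂ) • (1 : Matrix (Fin 6) (Fin 6) ℂ)) :
    6 ∣ q := by
  by_contra h6
  have h1 : 6 ∣ q ^ 2 := by
    by_cases h2 : 2 ∣ q
    · have h3 : ¬ 3 ∣ q := fun h3 => h6 (by omega)
      refine result 6 q 2 (by norm_num) hq Nat.prime_two ?_ (Or.inl (by norm_num)) A B H hH hHH
      intro r hr hrq hr2
      have := hr.two_le
      by_contra hlt
      have h4 : r = 3 ∨ r = 4 := by omega
      rcases h4 with rfl | rfl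
      · exact h3 hrq
      · exact absurd hr (by norm_num)
    · refine result 6 q 3 (by norm_num) hq Nat.prime_three ?_ (Or.inl (by norm_num)) A B H hH hHH
      intro r hr hrq hr2
      have := hr.two_le
      by_contra hlt
      have h4 : r = 2 ∨ r = 4 := by omega
      rcases h4 with rfl | rfl
      · exact h2 hrq
      · exact absurd hr (by norm_num)
  have h2 : 2 ∣ q := Nat.prime_two.dvd_of_dvd_pow (dvd_trans (by norm_num) h1)
  have h3 : 3 ∣ q := Nat.prime_three.dvd_of_dvd_pow (dvd_trans (by norm_num) h1)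
  exact h6 (by omega)

end Pool.Agent.Results.MP_2b2af9_co.SmallOrder
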